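import Mathlib
import Pool.Agent.KS6_76.NC.Dyn

/-!
# One infinite family of sequences, all finite subfamilies of which are counterexamples

The library shows that for every `ℓ ≥ 2` there are integer sequences `a₁, …, a_ℓ` (with `a_i = 0`
for `i ≥ 3`) which satisfy (i) and (ii) but not (iii). Here there is one infinite family `a 0, a 1,
a 2, …` of integer sequences such that every finite subfamily (with at least two members for the
last point)

* satisfies (i) in the strongest possible form: for arbitrary, not necessarily commuting,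
  measure preserving transformations the averages converge in mean square to the product of the
  limits of the single ergodic averages (for ergodic transformations: to the product of the
  integrals, so the sequences are jointly ergodic); and more than that, there is a statement on
  bounded numerical sequences, without any dynamics (`MeanValues`);
* satisfies (i) and (ii) of the problem;
* does not satisfy (iii), already for the `2`-step nilsequences of one and the same Heisenberg
  nilmanifold.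
-/

set_option autoImplicit false

namespace Pool.Agent.Results.MP_2957ea_an.JointlyErgodicFamily

open Pool.Agent.Results.MP_2957ea_an.EquivalenceFails
open Pool.Agent.Results.MP_2957ea_an.EquivalenceFails.Conc
open Pool.Agent.Results.MP_2957ea_an.EquivalenceFails.Bil
open Pool.Agent.Results.MP_2957ea_an.EquivalenceFails.Comb
open Pool.Agent.Results.MP_2957ea_an.EquivalenceFails.Dyn
open Pool.Agent.KS6_76.NC
open Filter Topology MeasureTheory
open scoped ENNReal Manifold ContDiff

/-- The averages of products of arbitrary bounded sequences which have mean values, taken along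
`a 1, …, a ℓ`, converge to the product of the mean values. -/
def MeanValues (ℓ : ℕ) (a : Fin ℓ → ℕ → ℤ) : Prop :=
  ∀ (u : Fin ℓ → ℤ → ℂ) (c : Fin ℓ → ℂ), (∀ i, ∃ C : ℝ, ∀ n, ‖u i n‖ ≤ C) →
    (∀ i, Tendsto (fun N : ℕ => (N : ℂ)⁻¹ * ∑ n ∈ Finset.range N, u i n) atTop (𝓝 (c i))) →
    Tendsto (fun N : ℕ => (1 / (N : ℂ)) * ∑ n ∈ Finset.Icc 1 N, ∏ i, u i (a i n)) atTop
      (𝓝 (∏ i, c i))

/-- The single ergodic average `(1/N) * ∑_{n<N} f(T^n x)`. -/
noncomputable def timeAvg {X : Type} (T : Equiv.Perm X) (f : X → ℂ) (N : ℕ) (x : X) : ℂ :=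
  (N : ℂ)⁻¹ * ∑ n ∈ Finset.range N, f ((T ^ (n : ℤ)) x)

/-- For arbitrary invertible measure preserving transformations of a probability space (which need
not commute) and bounded functions, the averages along `a 1, …, a ℓ` converge in mean square to the
product of the limits of the single ergodic averages. -/
def ProductLimits (ℓ : ℕ) (a : Fin ℓ → ℕ → ℤ) : Prop :=
  ∀ (X : Type) [MeasurableSpace X] (μ : Measure X) [IsProbabilityMeasure μ]
    (T : Fin ℓ → Equiv.Perm X),
    (∀ i, MeasurePreserving (T i) μ μ) → (∀ i, Measurable (T i).symm) →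
    ∀ f : Fin ℓ → X → ℂ, (∀ i, MemLp (f i) ⊤ μ) →
      ∃ g : Fin ℓ → X → ℂ,
        (∀ i, MemLp (g i) ⊤ μ ∧
          Tendsto (fun N => eLpNorm (fun x => timeAvg (T i) (f i) N x - g i x) 2 μ) atTop (𝓝 0)) ∧
        Tendsto (fun N => eLpNorm (fun x => multAvg a T f N x - ∏ i, g i x) 2 μ) atTop (𝓝 0)

/-- Joint ergodicity: for arbitrary invertible ergodic measure preserving transformations of a
probability space (which need not commute) the averages along `a 1, …, a ℓ` converge in mean square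
to the product of the integrals. -/
def JointlyErgodic (ℓ : ℕ) (a : Fin ℓ → ℕ → ℤ) : Prop :=
  ∀ (X : Type) [MeasurableSpace X] (μ : Measure X) [IsProbabilityMeasure μ]
    (T : Fin ℓ → Equiv.Perm X),
    (∀ i, Ergodic (T i) μ) → (∀ i, Measurable (T i).symm) →
    ∀ f : Fin ℓ → X → ℂ, (∀ i, MemLp (f i) ⊤ μ) →
      Tendsto (fun N => eLpNorm (fun x => multAvg a T f N x - ∏ i, ∫ y, f i y ∂μ) 2 μ) atTop (𝓝 0)

/-- Condition (iii) of the problem for nilmanifolds of step at most `d` only (for `d = ℓ` this is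
`NilsequenceAveragesConverge ℓ a`). -/
def StepAveragesConverge (d ℓ : ℕ) (a : Fin ℓ → ℕ → ℤ) : Prop :=
  ∀ (E : Type) [NormedAddCommGroup E] [NormedSpace ℝ E] [FiniteDimensional ℝ E]
    (G : Type) [Group G] [TopologicalSpace G] [T2Space G] [SecondCountableTopology G]
    [ChartedSpace E G] [LieGroup 𝓘(ℝ, E) ∞ G] [Group.IsNilpotent G] (Γ : Subgroup G),
    Group.nilpotencyClass G ≤ d → DiscreteTopology Γ → CompactSpace (G ⧸ Γ) →
    ∀ (b : Fin ℓ → G) (x : G ⧸ Γ) (F : G ⧸ Γ → ℂ), Continuous F →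
      ∃ L : ℂ, Tendsto (fun N : ℕ => (1 / (N : ℂ)) * ∑ n ∈ Finset.Icc 1 N,
        F ((List.ofFn fun i => b i ^ a i n).prod • x)) atTop (𝓝 L)

theorem core {ℓ : ℕ} (s : Fin ℓ → ℕ) (hs : Function.Injective s)
    {X : Type} [MeasurableSpace X] {μ : Measure X} [IsProbabilityMeasure μ]
    (T : Fin ℓ → Equiv.Perm X) (hT : ∀ i, MeasurePreserving (T i) μ μ)
    (hTs : ∀ i, Measurable (T i).symm) (f : Fin ℓ → X → ℂ) (hf : ∀ i, MemLp (f i) ⊤ μ) :
    ∃ g : Fin ℓ → X → ℂ,
      (∀ i, MemLp (g i) ⊤ μ ∧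
        Tendsto (fun N => eLpNorm (fun x => timeAvg (T i) (f i) N x - g i x) 2 μ) atTop (𝓝 0)) ∧
      Tendsto (fun N => eLpNorm (fun x => multAvg (fun i => aa (s i)) T f N x - ∏ i, g i x) 2 μ)
        atTop (𝓝 0) ∧
      MemLp (fun x => ∏ i, g i x) 2 μ ∧
      ∀ i, Ergodic (T i) μ → g i =ᵐ[μ] fun _ => ∫ y, f i y ∂μ := by
  choose g0 C hg hC hb he using fun i => Fin1.exists_rep (hf i)
  choose G hG using fun i => Conv.erg (T i) (hT i) (hTs i) (hg i) (hb i) (hC i)
  have h0 : ∀ i, ∀ᵐ x ∂μ, ∀ n : ℤ, f i ((T i ^ n) x) = g0 i ((T i ^ n) x) := by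
    intro i
    rw [ae_all_iff]
    intro n
    exact (mp_zpow (T i) (hT i) (hTs i) n).quasiMeasurePreserving.ae_eq_comp (he i)
  have hprod := Conv.prod (μ := μ) Finset.univ hG hC
  refine ⟨G, fun i => ⟨memLp_top_of_bound (hG i).lsm (C i) (hG i).lbd, ?_⟩, ?_,
    MemLp.of_bound hprod.lsm _ hprod.lbd, ?_⟩
  · refine (hG i).lim.congr fun N => ?_
    apply eLpNorm_congr_ae
    filter_upwards [h0 i] with x hx
    unfold timeAvg Dyn.erg
    rw [Finset.sum_congr rfl fun (n : ℕ) _ => (hx (n : ℤ)).symm]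
  · refine (main s hs T hT hTs g0 hg C hC hb G hG).congr fun N => ?_
    apply eLpNorm_congr_ae
    filter_upwards [ae_all_iff.mpr h0] with x hx
    unfold multAvg
    rw [Finset.sum_congr rfl fun n _ => Finset.prod_congr rfl fun i _ => hx i (aa (s i) n)]
  · intro i hi
    have h1 := limit_const (T i) hi (hTs i) (hg i) (hb i) (hG i)
    rw [integral_congr_ae (he i)]
    exact h1

theorem commuting {ℓ : ℕ} (s : Fin ℓ → ℕ) (hs : Function.Injective s) :
    GoodForCommuting ℓ (fun i => aa (s i)) := by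
  intro X _ μ _ T hT hTs _ f hf
  obtain ⟨g, _, h2, h3, _⟩ := core s hs T hT hTs f hf
  exact ⟨_, h3, h2⟩

theorem ergodic {ℓ : ℕ} (s : Fin ℓ → ℕ) (hs : Function.Injective s) :
    JointlyErgodic ℓ (fun i => aa (s i)) := by
  intro X _ μ _ T hT hTs f hf
  obtain ⟨g, _, h2, _, h4⟩ := core s hs T (fun i => (hT i).toMeasurePreserving) hTs f hf
  refine h2.congr fun N => ?_
  apply eLpNorm_congr_ae
  have h5 : ∀ᵐ x ∂μ, ∀ i, g i x = ∫ y, f i y ∂μ := ae_all_iff.mpr fun i => h4 i (hT i)
  filter_upwards [h5] with x hx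
  rw [Finset.prod_congr rfl fun i _ => hx i]

theorem avg_psi (k i j : ℕ) (h : pr k = (i, j)) :
    ((MM k).length : ℝ)⁻¹ • ((MM k).map fun p => psi (p i, p j)).sum
      = ((ML k).length : ℝ)⁻¹ • ((ML k).map psi).sum := by
  have hne := pr_ne k
  rw [h] at hne
  have hq0 : (qk k : ℂ) ≠ 0 := by exact_mod_cast (qk_pos k).ne'
  have h1 : ((MM k).map fun p => psi (p i, p j)).sum
      = ((ML k).map psi).sum * (qk k : ℂ) ^ (k + 2) := by
    rw [sum_MM, ← List.sum_map_mul_right]
    congr 1
    apply List.map_congr_left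
    intro ab _
    have e1 : ∀ c, point k ab c i = ab.1 := by
      intro c
      unfold point
      rw [h, if_pos rfl]
    have e2 : ∀ c, point k ab c j = ab.2 := by
      intro c
      unfold point
      rw [h, if_neg (Ne.symm hne), if_pos rfl]
    simp only [e1, e2]
    rw [Finset.sum_const, Fintype.card_piFinset]
    simp
    ring
  rw [h1, length_MM, Complex.real_smul, Complex.real_smul]
  push_cast
  field_simp

theorem not_step_two {ℓ : ℕ} (hℓ : 2 ≤ ℓ) (s : Fin ℓ → ℕ) (hs : Function.Injective s) :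
    ¬ StepAveragesConverge 2 ℓ (fun i => aa (s i)) := by
  obtain ⟨m, rfl⟩ : ∃ m, ℓ = m + 2 := ⟨ℓ - 2, by omega⟩
  intro hcon
  set b : Fin (m + 2) → Heis := fun i =>
    if i.val = 0 then Heis.mk 0 1 0 else if i.val = 1 then Heis.mk al 0 0 else 1 with hbdef
  obtain ⟨L, hL⟩ := hcon (ℝ × ℝ × ℝ) Heis Heis.Lat Heis.class_le
    inferInstance inferInstance b (QuotientGroup.mk 1) Heis.FF Heis.FF_cont
  set Φ : (ℕ → ℤ) → ℂ := fun p => psi (p (s 0), p (s (Fin.succ 0))) with hΦ
  have hval : ∀ n : ℕ, Heis.FF ((List.ofFn fun i => b i ^ aa (s i) n).prod •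
      (QuotientGroup.mk (1 : Heis) : Heis ⧸ Heis.Lat)) = Φ (seqq MM (n - 1)) := by
    intro n
    have h1 : (List.ofFn fun i => b i ^ aa (s i) n).prod
        = (Heis.mk 0 1 0) ^ (aa (s 0) n) * (Heis.mk al 0 0) ^ (aa (s (Fin.succ 0)) n) := by
      rw [List.ofFn_succ, List.ofFn_succ, List.prod_cons, List.prod_cons]
      have e2 : (List.ofFn fun i : Fin m => b i.succ.succ ^ aa (s i.succ.succ) n).prod = 1 := by
        apply List.prod_eq_one
        intro x hx
        rw [List.mem_ofFn] at hx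
        obtain ⟨i, rfl⟩ := hx
        have : b i.succ.succ = 1 := by
          rw [hbdef]
          simp only
          rw [if_neg (by simp), if_neg (by simp)]
        rw [this, one_zpow]
      rw [e2, mul_one]
      rfl
    rw [h1, Heis.FF_eval]
    rfl
  have hΦb : ∀ p, ‖Φ p‖ ≤ 1 := fun p => (norm_psi _).le
  have hL2 : Tendsto (fun N : ℕ => (N : ℝ)⁻¹ • ∑ n ∈ Finset.range N, Φ (seqq MM n)) atTop
      (𝓝 L) := by
    refine hL.congr fun N => ?_
    rw [Complex.real_smul, ← Fin1.shift_sum]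
    push_cast
    rw [one_div]
    congr 1
    exact Finset.sum_congr rfl fun n _ => hval n
  set l : ℕ → ℕ := fun k => (pre MM (k + 1)).length with hl
  have hltop : Tendsto l atTop atTop :=
    tendsto_atTop_mono (fun k => (Nat.le_succ k).trans (le_length_pre MM MM_ne (k + 1))) tendsto_id
  have hL3 := hL2.comp hltop
  have hdiff : Tendsto (fun k : ℕ => ((l k : ℝ))⁻¹ • ∑ n ∈ Finset.range (l k), Φ (seqq MM n)
      - ((MM k).length : ℝ)⁻¹ • ((MM k).map Φ).sum) atTop (𝓝 0) := by
    rw [tendsto_zero_iff_norm_tendsto_zero]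
    have hb : Tendsto (fun k : ℕ => 2 * 1 / ((k : ℝ) + 1)) atTop (𝓝 0) :=
      (tendsto_const_div_atTop_nhds_zero_nat (2 * 1 : ℝ)).comp (tendsto_add_atTop_nat 1) |>.congr
        (fun k => by simp)
    refine squeeze_zero (fun _ => norm_nonneg _) (fun k => ?_) hb
    exact avg_block_end MM MM_ne Φ 1 hΦb k
  have hlist : Tendsto (fun k : ℕ => ((MM k).length : ℝ)⁻¹ • ((MM k).map Φ).sum) atTop (𝓝 L) := by
    have := hL3.sub hdiff
    rw [sub_zero] at this
    refine this.congr fun k => ?_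
    simp only [Function.comp_apply]
    abel
  have h1 : ∀ᶠ k in atTop, ‖((MM k).length : ℝ)⁻¹ • ((MM k).map Φ).sum - L‖ < 1 / 16 := by
    have := (tendsto_iff_norm_sub_tendsto_zero.mp hlist).eventually
      (gt_mem_nhds (by norm_num : (0 : ℝ) < 1 / 16))
    exact this
  have h2 : ∀ᶠ k in atTop, dl k < 1 / 32 :=
    dl_tendsto.eventually (gt_mem_nhds (by norm_num : (0 : ℝ) < 1 / 32))
  obtain ⟨K, hK⟩ := eventually_atTop.mp (h1.and (h2.and eventually_eta))
  have hne : s 0 ≠ s (Fin.succ 0) := fun h => by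
    have := hs h
    exact absurd this (by simp)
  obtain ⟨t, ht, hp0, hp1⟩ := pr_inf (s 0) (s (Fin.succ 0)) hne K
  obtain ⟨a1, a2, a3⟩ := hK (2 * t) (by omega)
  obtain ⟨b1, b2, b3⟩ := hK (2 * t + 1) (by omega)
  rw [hΦ, avg_psi _ _ _ hp0] at a1
  rw [hΦ, avg_psi _ _ _ hp1] at b1
  have c1 := avg_psi_even (2 * t) (even_two_mul t)
  have c2 := avg_psi_odd (2 * t + 1) (by simp) b3
  set u := ((ML (2 * t)).length : ℝ)⁻¹ • ((ML (2 * t)).map psi).sum with hu
  set v := ((ML (2 * t + 1)).length : ℝ)⁻¹ • ((ML (2 * t + 1)).map psi).sum with hv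
  have e : (1 / 2 : ℂ) = -(v - 1 / 2) + (v - L) - (u - L) + u := by ring
  have h3 : ‖(1 / 2 : ℂ)‖ ≤ ‖v - 1 / 2‖ + ‖v - L‖ + ‖u - L‖ + ‖u‖ := by
    calc ‖(1 / 2 : ℂ)‖ = ‖-(v - 1 / 2) + (v - L) - (u - L) + u‖ := by rw [← e]
      _ ≤ ‖-(v - 1 / 2) + (v - L) - (u - L)‖ + ‖u‖ := norm_add_le _ _
      _ ≤ ‖-(v - 1 / 2) + (v - L)‖ + ‖u - L‖ + ‖u‖ := by gcongr; exact norm_sub_le _ _
      _ ≤ ‖-(v - 1 / 2)‖ + ‖v - L‖ + ‖u - L‖ + ‖u‖ := by gcongr; exact norm_add_le _ _
      _ = _ := by rw [norm_neg]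
  have h4 : ‖(1 / 2 : ℂ)‖ = 1 / 2 := by norm_num
  rw [h4] at h3
  linarith

/-- There is an infinite family `a 0, a 1, …` of integer sequences, such that for all `ℓ` and all
pairwise different indices `s 0, …, s (ℓ - 1)` the sequences `a (s 0), …, a (s (ℓ - 1))`

* turn bounded numerical sequences with mean values into products with the product mean value;
* have product limits for all measure preserving transformations, commuting or not, and are
  jointly ergodic for all ergodic transformations, commuting or not;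
* are good for `ℓ`-convergence of commuting transformations (condition (i) of the problem) and of
  `ℓ`-step nilsystems (condition (ii) of the problem);
* fail condition (iii) of the problem if `ℓ ≥ 2`, and indeed already for `2`-step nilsequences. -/
theorem result : ∃ a : ℕ → ℕ → ℤ, ∀ (ℓ : ℕ) (s : Fin ℓ → ℕ), Function.Injective s →
    MeanValues ℓ (fun i => a (s i)) ∧ ProductLimits ℓ (fun i => a (s i)) ∧
    JointlyErgodic ℓ (fun i => a (s i)) ∧ GoodForCommuting ℓ (fun i => a (s i)) ∧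
    GoodForNilsystems ℓ (fun i => a (s i)) ∧
    (2 ≤ ℓ → ¬ NilsequenceAveragesConverge ℓ (fun i => a (s i)) ∧
      ¬ StepAveragesConverge 2 ℓ (fun i => a (s i))) := by
  refine ⟨aa, fun ℓ s hs => ⟨?_, ?_, ergodic s hs, commuting s hs,
    Fin1.good_nil _ _ (commuting s hs), fun hℓ => ⟨?_, not_step_two hℓ s hs⟩⟩⟩
  · intro u c hu hc
    exact numeric s hs u hu c hc
  · intro X _ μ _ T hT hTs f hf
    obtain ⟨g, h1, h2, _, _⟩ := core s hs T hT hTs f hf
    exact ⟨g, h1, h2⟩
  · intro h
    refine not_step_two hℓ s hs ?_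
    intro E _ _ _ G _ _ _ _ _ _ _ Γ hc
    exact h E G Γ (hc.trans hℓ)

end Pool.Agent.Results.MP_2957ea_an.JointlyErgodicFamily
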